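import Pool.Agent.Q26.Mono

set_option autoImplicit false

/-!
# Monogenity of the irreducible factors of the Lucas polynomials with odd index

For odd `n` the only monogenic monic irreducible factor of `L_n` is `x`. Consequently all monic
irreducible factors of `L_n` are monogenic if and only if `n = 1`.

Proof. A root `θ ≠ 0` of `L_n`, `n` odd, is `θ = y - 1/y` with `y ^ n = 1`, `y ≠ 1`. Since
`y F_n(θ) + F_(n-1)(θ) = 1` and `F_n(θ) (y + 1/y) = 2`, the algebraic integer `y` lies in `ℚ(θ)`. If
`y = g(θ)` with an integer polynomial `g`, complex conjugation gives `1/y = g(-θ)`, so `θ = y - 1/y` is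
twice an algebraic integer; then so is `y - 1`, and `0 = 1 + y + ... + y^(n-1)` shows that `n/2` is an
algebraic integer, a contradiction.
-/

namespace Pool.Agent.Results.MP_14f819_nt.OddLucasAnswer

open Polynomial IntermediateField

/-- The Lucas polynomials: `L 0 = 2`, `L 1 = x`, `L (n + 2) = x L (n + 1) + L n`. -/
noncomputable def L : ℕ → ℤ[X]
  | 0 => 2
  | 1 => X
  | (n + 2) => X * L (n + 1) + L n

/-- `f` (monic and irreducible) is monogenic: for the roots `θ` of `f`, the algebraic integers of the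
field `ℚ(θ)` are exactly the elements of `ℤ[θ]`. -/
def Monogenic (f : ℤ[X]) : Prop :=
  ∀ θ : ℂ, aeval θ f = 0 → ∀ α : ℂ, (α ∈ ℚ⟮θ⟯ ∧ IsIntegral ℤ α) ↔ α ∈ Algebra.adjoin ℤ {θ}

lemma L_eq (n : ℕ) : L n = Pool.Agent.Q26.Mono.lucP n := by
  induction n using Nat.strong_induction_on with
  | _ n ih =>
    match n, ih with
    | 0, _ => unfold L Pool.Agent.Q26.Mono.lucP; rfl
    | 1, _ => unfold L Pool.Agent.Q26.Mono.lucP; rfl
    | (n + 2), ih =>
      unfold L Pool.Agent.Q26.Mono.lucP
      rw [ih (n + 1) (by omega), ih n (by omega)]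

/-- **Answer for odd `n`.** The only monogenic monic irreducible factor of `L n` is `x`; so all monic
irreducible factors of `L n` are monogenic if and only if `n = 1`. -/
theorem result (n : ℕ) (hn : Odd n) :
    (∀ f : ℤ[X], f.Monic → Irreducible f → f ∣ L n → (Monogenic f ↔ f = X)) ∧
    ((∀ f : ℤ[X], f.Monic → Irreducible f → f ∣ L n → Monogenic f) ↔ n = 1) := by
  rw [L_eq]
  exact ⟨fun f hf hfi hd => Pool.Agent.Q26.Mono.odd_lucas hn hf hfi hd,
    Pool.Agent.Q26.Mono.odd_lucas_all hn⟩

end Pool.Agent.Results.MP_14f819_nt.OddLucasAnswer
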